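import Mathlib
import Pool.Agent.Helper26.HB.Goals

/-!
# Packet HB-UN
-/

set_option autoImplicit false

open Filter Topology

namespace Pool.Agent.Helper16.HB

/-- a bounded real sequence converges along every ultrafilter -/
theorem exists_lim (f : ℕ → ℝ) (K : ℝ) (h : ∀ n, |f n| ≤ K) :
    ∃ l : ℝ, Tendsto f (hyperfilter ℕ : Filter ℕ) (𝓝 l) := by
  have hc : IsCompact (Set.Icc (-K) K) := isCompact_Icc
  have h1 : ((hyperfilter ℕ).map f : Filter ℝ) ≤ 𝓟 (Set.Icc (-K) K) := by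
    rw [le_principal_iff]
    show f ⁻¹' (Set.Icc (-K) K) ∈ (hyperfilter ℕ : Filter ℕ)
    have : f ⁻¹' (Set.Icc (-K) K) = Set.univ := by
      ext n
      simp only [Set.mem_preimage, Set.mem_Icc, Set.mem_univ, iff_true]
      exact abs_le.mp (h n)
    rw [this]
    exact univ_mem
  obtain ⟨l, _, hl⟩ := hc.ultrafilter_le_nhds ((hyperfilter ℕ).map f) h1
  exact ⟨l, hl⟩

theorem tendsto_const_div (c : ℝ) :
    Tendsto (fun R : ℕ => c / (R : ℝ)) (hyperfilter ℕ : Filter ℕ) (𝓝 0) := by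
  have h := tendsto_const_div_atTop_nhds_zero_nat c
  refine h.mono_left ?_
  have := hyperfilter_le_cofinite (α := ℕ)
  rwa [Nat.cofinite_eq_atTop] at this

theorem gUN : Pool.Agent.Helper26.HB.G_UN := by
  intro hIV G _ Y b ℓb ε C1 R0 X hε hY hb h0 h1 hj hcount
  have hle : (hyperfilter ℕ : Filter ℕ) ≤ atTop := by
    have := hyperfilter_le_cofinite (α := ℕ)
    rwa [Nat.cofinite_eq_atTop] at this
  have hC1 : 0 ≤ C1 := by
    have h2 := hb 0 (by norm_num) 0
    have h3 := abs_nonneg (X 0 (b ^ 0))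
    have h4 : |X 0 (b ^ 0)| ≤ C1 * ((0 : ℕ) + 1 : ℝ) := h2
    have h5 : C1 * (((0 : ℕ) : ℝ) + 1) = C1 := by simp
    linarith
  set q : (G → ℝ) → ℕ → ℝ := fun x R => (x (b ^ R) + (R : ℝ) * ℓb) / R with hq
  set L : (G → ℝ) → ℝ := fun x => limUnder (hyperfilter ℕ : Filter ℕ) (q x) with hL
  have hLt : ∀ t ∈ Set.Icc (0 : ℝ) 1,
      Tendsto (q (X t)) (hyperfilter ℕ : Filter ℕ) (𝓝 (L (X t))) := by
    intro t ht
    apply tendsto_nhds_limUnder
    refine exists_lim (q (X t)) (2 * C1 + ℓb) ?_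
    intro R
    rcases Nat.eq_zero_or_pos R with hR | hR
    · subst hR
      simp only [hq, Nat.cast_zero, div_zero, abs_zero]
      positivity
    · have hR' : (1 : ℝ) ≤ R := by exact_mod_cast hR
      have hR0 : (0 : ℝ) < R := by linarith
      have hbt := hb t ht R
      simp only [hq]
      rw [abs_div, abs_of_pos hR0, div_le_iff₀ hR0]
      have hb0 : (0 : ℝ) ≤ ℓb := Nat.cast_nonneg _
      calc |X t (b ^ R) + (R : ℝ) * ℓb| ≤ |X t (b ^ R)| + |(R : ℝ) * ℓb| := abs_add_le _ _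
        _ ≤ C1 * (R + 1) + R * ℓb := by
            rw [abs_of_nonneg (by positivity : (0 : ℝ) ≤ (R : ℝ) * ℓb)]
            linarith
        _ ≤ (2 * C1 + ℓb) * R := by nlinarith
  have hunc := hIV (fun t => L (X t)) C1 ε hε ?_ ?_ ?_
  · apply hunc
    have hc : (L '' Y).Countable := hcount.image L
    refine hc.mono ?_
    rintro _ ⟨t, ht, rfl⟩
    exact ⟨X t, hY t ht, rfl⟩
  · -- s 0 ≤ 0
    have ht : (0 : ℝ) ∈ Set.Icc (0 : ℝ) 1 := by norm_num
    refine le_of_tendsto_of_tendsto (hLt 0 ht) (tendsto_const_div C1) ?_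
    refine hle (Filter.eventually_atTop.mpr ⟨1, fun R hR => ?_⟩)
    have hR0 : (0 : ℝ) < R := by
      have : (1 : ℝ) ≤ R := by exact_mod_cast hR
      linarith
    show (X 0 (b ^ R) + (R : ℝ) * ℓb) / R ≤ C1 / R
    apply div_le_div_of_nonneg_right _ hR0.le
    have := h0 R
    linarith
  · -- ε ≤ s 1
    have ht : (1 : ℝ) ∈ Set.Icc (0 : ℝ) 1 := by norm_num
    have hl : Tendsto (fun R : ℕ => ε - C1 / (R : ℝ)) (hyperfilter ℕ : Filter ℕ) (𝓝 (ε - 0)) :=
      (tendsto_const_nhds).sub (tendsto_const_div C1)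
    have : ε - 0 ≤ L (X 1) := by
      refine le_of_tendsto_of_tendsto hl (hLt 1 ht) ?_
      refine hle (Filter.eventually_atTop.mpr ⟨max R0 1, fun R hR => ?_⟩)
      have hR1 : R0 ≤ R := le_trans (le_max_left _ _) hR
      have hR2 : 1 ≤ R := le_trans (le_max_right _ _) hR
      have hR0 : (0 : ℝ) < R := by
        have : (1 : ℝ) ≤ R := by exact_mod_cast hR2
        linarith
      show ε - C1 / R ≤ (X 1 (b ^ R) + (R : ℝ) * ℓb) / R
      rw [le_div_iff₀ hR0]
      have h2 := h1 R hR1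
      have h3 : (ε - C1 / R) * R = ε * R - C1 := by
        field_simp
      rw [h3]
      linarith
    simpa using this
  · -- no upward jumps
    intro t t' h0t htt' ht1
    obtain ⟨D, hD⟩ := hj t t' h0t htt' ht1
    have ht : t ∈ Set.Icc (0 : ℝ) 1 := ⟨h0t, by linarith⟩
    have ht' : t' ∈ Set.Icc (0 : ℝ) 1 := ⟨by linarith, ht1⟩
    have hl : Tendsto (fun R : ℕ => q (X t) R + C1 * (t' - t) + D / (R : ℝ))
        (hyperfilter ℕ : Filter ℕ) (𝓝 (L (X t) + C1 * (t' - t) + 0)) :=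
      ((hLt t ht).add tendsto_const_nhds).add (tendsto_const_div D)
    have : L (X t') ≤ L (X t) + C1 * (t' - t) + 0 := by
      refine le_of_tendsto_of_tendsto (hLt t' ht') hl ?_
      refine hle (Filter.eventually_atTop.mpr ⟨1, fun R hR => ?_⟩)
      have hR0 : (0 : ℝ) < R := by
        have : (1 : ℝ) ≤ R := by exact_mod_cast hR
        linarith
      show (X t' (b ^ R) + (R : ℝ) * ℓb) / R
        ≤ (X t (b ^ R) + (R : ℝ) * ℓb) / R + C1 * (t' - t) + D / R
      have h3 : (X t (b ^ R) + (R : ℝ) * ℓb) / R + C1 * (t' - t) + D / R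
          = (X t (b ^ R) + (R : ℝ) * ℓb + C1 * (t' - t) * R + D) / R := by
        field_simp
      rw [h3]
      apply div_le_div_of_nonneg_right _ hR0.le
      have := hD R
      linarith
    simpa using this

end Pool.Agent.Helper16.HB
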